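import Pool.Agent.Helper31.CY.St1

/-!
Project CY (MP_9583f0_gt), module NBR: points near a ray point are not tripod points.
-/

set_option autoImplicit false

open Set Topology Filter

namespace Pool.Agent.Helper58.CY

open Pool.Agent.Helper31.CY

private lemma equiv_of_inj (B : ℝ × ℝ →L[ℝ] ℝ × ℝ) (h : ∀ v, v ≠ 0 → B v ≠ 0) :
    ∃ e : (ℝ × ℝ) ≃L[ℝ] (ℝ × ℝ), (e : ℝ × ℝ →L[ℝ] ℝ × ℝ) = B := by
  have hinj : Function.Injective (B : ℝ × ℝ →ₗ[ℝ] ℝ × ℝ) := by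
    rw [injective_iff_map_eq_zero]
    intro v hv
    by_contra hne
    exact h v hne hv
  refine ⟨(LinearEquiv.ofInjectiveEndo (B : ℝ × ℝ →ₗ[ℝ] ℝ × ℝ) hinj).toContinuousLinearEquiv, ?_⟩
  ext
  all_goals rfl

private lemma tri_side (hTC1 : StTC1) (hMDY : StMDY) (N : Set (ℝ × ℝ)) (x : ℝ × ℝ)
    (hT : TriAt N x) : ∃ e : (ℝ × ℝ) ≃L[ℝ] (ℝ × ℝ), ∀ v, v ∈ TCn N x ↔ e v ∈ tri := by
  obtain ⟨g, ⟨U, hU, hxU, hgU, hg0, hinj, hN⟩, -⟩ := hT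
  obtain ⟨-, -, -, m1, m2, -, -, m5⟩ := hMDY
  obtain ⟨e, he⟩ := equiv_of_inj _ hinj
  refine ⟨e, ?_⟩
  have hs : HasStrictFDerivAt g (e : ℝ × ℝ →L[ℝ] ℝ × ℝ) x := by
    rw [he]
    exact (hgU.contDiffAt (hU.mem_nhds hxU)).hasStrictFDerivAt (by norm_num)
  refine hTC1 (ℝ × ℝ) (ℝ × ℝ) N x g e tri U hs hg0 (hU.mem_nhds hxU) ?_ m1 m2
  intro y hy
  rw [hN y hy, m5]

private lemma line_closed (w : ℝ × ℝ) : IsClosed {y : ℝ × ℝ | ∃ s : ℝ, y = s • w} := by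
  have h : {y : ℝ × ℝ | ∃ s : ℝ, y = s • w} = (Submodule.span ℝ {w} : Submodule ℝ (ℝ × ℝ)) := by
    ext y
    rw [SetLike.mem_coe, Submodule.mem_span_singleton]
    constructor
    · rintro ⟨s, hs⟩
      exact ⟨s, hs.symm⟩
    · rintro ⟨s, hs⟩
      exact ⟨s, hs.symm⟩
  rw [h]
  exact Submodule.closed_of_finiteDimensional _

private lemma ray_closed (w : ℝ × ℝ) (hw : w ≠ 0) :
    IsClosed {y : ℝ × ℝ | ∃ s : ℝ, 0 ≤ s ∧ y = s • w} := by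
  have h : {y : ℝ × ℝ | ∃ s : ℝ, 0 ≤ s ∧ y = s • w} = (fun s : ℝ => s • w) '' Ici 0 := by
    ext y
    constructor
    · rintro ⟨s, hs, rfl⟩
      exact ⟨s, hs, rfl⟩
    · rintro ⟨s, hs, rfl⟩
      exact ⟨s, hs, rfl⟩
  rw [h]
  exact (isClosedEmbedding_smul_left hw).isClosedMap _ isClosed_Ici

private lemma line_side (hTC1 : StTC1) (N : Set (ℝ × ℝ)) (k : ℕ) (d : Fin k → ℝ × ℝ)
    (g : ℝ × ℝ → ℝ × ℝ) (U : Set (ℝ × ℝ)) (hU : IsOpen U) (hgU : ContDiffOn ℝ 1 g U)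
    (hN : ∀ x ∈ U, x ∈ N ↔ ∃ (i : Fin k) (t : ℝ), 0 ≤ t ∧ g x = t • d i)
    (hd : ∀ i, d i ≠ 0)
    (hdd : ∀ i j, i ≠ j → ∀ s t : ℝ, 0 < s → 0 ≤ t → s • d i ≠ t • d j)
    (x : ℝ × ℝ) (hx : x ∈ U) (i : Fin k) (t : ℝ) (ht : 0 < t) (hgx : g x = t • d i)
    (e : (ℝ × ℝ) ≃L[ℝ] (ℝ × ℝ)) (he : (e : ℝ × ℝ →L[ℝ] ℝ × ℝ) = fderiv ℝ g x) :
    ∀ v, v ∈ TCn N x ↔ e v ∈ {y : ℝ × ℝ | ∃ s : ℝ, y = s • d i} := by
  have hxU := hU.mem_nhds hx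
  have hca : ContDiffAt ℝ 1 g x := hgU.contDiffAt hxU
  have hs : HasStrictFDerivAt (fun y => g y - g x) (e : ℝ × ℝ →L[ℝ] ℝ × ℝ) x := by
    rw [he]
    exact (hca.hasStrictFDerivAt (by norm_num)).sub_const _
  have hc : ContinuousAt g x := hca.continuousAt
  have hdn : 0 < ‖d i‖ := norm_pos_iff.2 (hd i)
  have n1 : ∀ᶠ y in 𝓝 x, ‖g y - g x‖ < t * ‖d i‖ := by
    have h1 : ContinuousAt (fun y => ‖g y - g x‖) x := (hc.sub continuousAt_const).norm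
    have h2 : ‖g x - g x‖ < t * ‖d i‖ := by
      rw [sub_self, norm_zero]
      positivity
    exact h1.eventually_lt continuousAt_const h2
  have n2 : ∀ j : Fin k, j ≠ i → ∀ᶠ y in 𝓝 x,
      g y ∉ {y : ℝ × ℝ | ∃ s : ℝ, 0 ≤ s ∧ y = s • d j} := by
    intro j hj
    have h0 : {y : ℝ × ℝ | ∃ s : ℝ, 0 ≤ s ∧ y = s • d j}ᶜ ∈ 𝓝 (g x) := by
      apply (ray_closed (d j) (hd j)).isOpen_compl.mem_nhds
      rintro ⟨s, hs0, hs1⟩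
      rw [hgx] at hs1
      exact hdd i j hj.symm t s ht hs0 hs1
    exact hc.eventually h0
  have n3 : ∀ᶠ y in 𝓝 x, ∀ j : Fin k, j ≠ i →
      g y ∉ {y : ℝ × ℝ | ∃ s : ℝ, 0 ≤ s ∧ y = s • d j} := by
    rw [eventually_all]
    intro j
    by_cases hj : j = i
    · exact Eventually.of_forall fun y h => absurd hj h
    · filter_upwards [n2 j hj] with y hy _ using hy
  have n4 : U ∩ ({y | ‖g y - g x‖ < t * ‖d i‖} ∩ {y | ∀ j : Fin k, j ≠ i →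
      g y ∉ {y : ℝ × ℝ | ∃ s : ℝ, 0 ≤ s ∧ y = s • d j}}) ∈ 𝓝 x :=
    inter_mem hxU (inter_mem n1 n3)
  refine hTC1 (ℝ × ℝ) (ℝ × ℝ) N x (fun y => g y - g x) e _ _ hs (sub_self _) n4 ?_
    (line_closed (d i)) ?_
  · rintro y ⟨hyU, hy1, hy2⟩
    rw [hN y hyU]
    constructor
    · rintro ⟨j, s, hs0, hs1⟩
      by_cases hj : j = i
      · subst hj
        refine ⟨s - t, ?_⟩
        rw [hs1, hgx, sub_smul]
      · exact absurd ⟨s, hs0, hs1⟩ (hy2 j hj)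
    · rintro ⟨s, hs1⟩
      have hs1' : g y - g x = s • d i := hs1
      have h3 : ‖g y - g x‖ < t * ‖d i‖ := hy1
      rw [hs1', norm_smul] at h3
      have h4 : ‖s‖ < t := lt_of_mul_lt_mul_right h3 hdn.le
      rw [Real.norm_eq_abs, abs_lt] at h4
      refine ⟨i, t + s, by linarith, ?_⟩
      rw [add_smul, ← hgx, ← hs1']
      abel
  · rintro l hl y ⟨s, rfl⟩
    exact ⟨l * s, by rw [mul_smul]⟩

theorem hNBR (hTC1 : StTC1) (hMDY : StMDY) : StNBR := by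
  intro N q k d g hR hd hdd
  obtain ⟨U, hU, hqU, hgU, hg0, hinj, hN⟩ := hR
  obtain ⟨e, he⟩ := equiv_of_inj _ hinj
  have e1 : ∀ᶠ x in 𝓝 q, x ∈ U := hU.mem_nhds hqU
  have e2 : ∀ᶠ x in 𝓝 q, fderiv ℝ g x ∈
      range (fun e : (ℝ × ℝ) ≃L[ℝ] (ℝ × ℝ) => (e : ℝ × ℝ →L[ℝ] ℝ × ℝ)) := by
    have hc : ContinuousAt (fderiv ℝ g) q :=
      (hgU.continuousOn_fderiv_of_isOpen hU (by norm_num)).continuousAt (hU.mem_nhds hqU)
    apply hc.eventually_mem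
    rw [← he]
    exact e.nhds
  have e3 : ∀ᶠ x in 𝓝 q, x ∈ ({q}ᶜ : Set (ℝ × ℝ)) → g x ≠ 0 := by
    rw [← eventually_nhdsWithin_iff]
    have hd : HasFDerivAt g (fderiv ℝ g q) q :=
      ((hgU.contDiffAt (hU.mem_nhds hqU)).differentiableAt (by norm_num)).hasFDerivAt
    have h1 := hd.eventually_ne (c := 0) (by
      rw [← he]
      exact ⟨_, e.antilipschitz⟩)
    exact h1
  obtain ⟨ε, hε, hE⟩ := Metric.eventually_nhds_iff_ball.1 (e1.and (e2.and e3))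
  refine ⟨ε, hε, fun x hx hxN hxq hT => ?_⟩
  have hxb : x ∈ Metric.ball q ε := by
    rw [Metric.mem_ball, Prod.dist_eq, Real.dist_eq, Real.dist_eq]
    exact max_lt hx.1 hx.2
  obtain ⟨hxU, ⟨e', he'⟩, hx0⟩ := hE x hxb
  obtain ⟨i, t, ht, hgx⟩ := (hN x hxU).1 hxN
  have ht' : 0 < t := by
    rcases ht.eq_or_lt with h | h
    · exfalso
      apply hx0 hxq
      rw [hgx, ← h, zero_smul]
    · exact h
  have hL := line_side hTC1 N k d g U hU hgU hN hd hdd x hxU i t ht' hgx e' he'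
  obtain ⟨b, hb⟩ := tri_side hTC1 hMDY N x hT
  obtain ⟨-, -, -, -, -, m3, m4, -⟩ := hMDY
  have k1 : b.symm ((1 : ℝ), (0 : ℝ)) ∈ TCn N x := by
    rw [hb, b.apply_symm_apply]
    exact m3
  have k2 : -(b.symm ((1 : ℝ), (0 : ℝ))) ∈ TCn N x := by
    rw [hL] at k1 ⊢
    obtain ⟨s, hs⟩ := k1
    exact ⟨-s, by rw [map_neg, hs, neg_smul]⟩
  rw [hb, map_neg, b.apply_symm_apply] at k2
  apply m4
  have h5 : -((1 : ℝ), (0 : ℝ)) = ((-1 : ℝ), (0 : ℝ)) := by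
    ext <;> simp
  rw [← h5]
  exact k2

end Pool.Agent.Helper58.CY
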