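import Pool.Agent.Helper31.CY.St1

/-!
Project CY (MP_9583f0_gt), module CHT: charts in the meridian.
-/

set_option autoImplicit false

open Set Topology Filter

namespace Pool.Agent.Helper58.CY

open Pool.Agent.Helper31.CY

private lemma pt0 (a b c : ℝ) : pt a b c 0 = a := by simp [pt]
private lemma pt1 (a b c : ℝ) : pt a b c 1 = b := by simp [pt]
private lemma pt2 (a b c : ℝ) : pt a b c 2 = c := by simp [pt]

/-- the embedding of the meridian plane -/
private noncomputable def LL : ℝ × ℝ →L[ℝ] E3 :=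
  (ContinuousLinearMap.fst ℝ ℝ ℝ).smulRight (bv 0) +
    (ContinuousLinearMap.snd ℝ ℝ ℝ).smulRight (bv 2)

private lemma LL_apply (w : ℝ × ℝ) : LL w = pt w.1 0 w.2 := by
  ext i
  fin_cases i <;> simp [LL, bv, pt]

/-- the first two coordinates -/
private noncomputable def PP : E3 →L[ℝ] ℝ × ℝ :=
  (EuclideanSpace.proj (0 : Fin 3) : E3 →L[ℝ] ℝ).prod (EuclideanSpace.proj (1 : Fin 3) : E3 →L[ℝ] ℝ)

private lemma PP_apply (v : E3) : PP v = (v 0, v 1) := rfl

private lemma e3_ext {v w : E3} (h0 : v 0 = w 0) (h1 : v 1 = w 1) (h2 : v 2 = w 2) : v = w := by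
  ext i
  fin_cases i
  · exact h0
  · exact h1
  · exact h2

private lemma norm_sq3 (v : E3) : ‖v‖ ^ 2 = v 0 ^ 2 + v 1 ^ 2 + v 2 ^ 2 := by
  rw [EuclideanSpace.norm_sq_eq, Fin.sum_univ_three]
  simp only [Real.norm_eq_abs, sq_abs]

private lemma Jv_pt (r z : ℝ) : Jv (pt r 0 z) = pt 0 r 0 := by
  apply e3_ext <;> simp [Jv, pt]

/-- the differential of the chart is injective -/
private lemma inj_chart (A : E3 →L[ℝ] E3) (r z : ℝ) (hr : 0 < r)
    (hA : ∀ v, v ≠ 0 → A v ≠ 0) (h0 : (A (Jv (pt r 0 z))) 0 = 0)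
    (h1 : (A (Jv (pt r 0 z))) 1 = 0) :
    ∀ v : ℝ × ℝ, v ≠ 0 → (PP.comp (A.comp LL)) v ≠ 0 := by
  intro v hv hcon
  set j := Jv (pt r 0 z) with hj
  have hjv : j = pt 0 r 0 := Jv_pt r z
  have hj0 : j ≠ 0 := by
    intro h
    have := congrArg (fun u : E3 => u 1) h
    simp only [hjv, pt1] at this
    exact hr.ne' this
  have hc' : (A j) 2 ≠ 0 := by
    intro h
    apply hA j hj0
    exact e3_ext h0 h1 h
  have hcon' : ((A (LL v)) 0, (A (LL v)) 1) = ((0 : ℝ), (0 : ℝ)) := hcon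
  have hc0 : (A (LL v)) 0 = 0 := congrArg Prod.fst hcon'
  have hc1 : (A (LL v)) 1 = 0 := congrArg Prod.snd hcon'
  have hz : A ((A j) 2 • LL v - (A (LL v)) 2 • j) = 0 := by
    rw [map_sub, map_smul, map_smul]
    apply e3_ext
    · simp [hc0, h0]
    · simp [hc1, h1]
    · simp [mul_comm]
  have hz2 : (A j) 2 • LL v - (A (LL v)) 2 • j = 0 := by
    by_contra hne
    exact hA _ hne hz
  generalize (A j) 2 = α at hc' hz2
  generalize (A (LL v)) 2 = β at hz2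
  have k0 := congrArg (fun u : E3 => u 0) hz2
  have k2 := congrArg (fun u : E3 => u 2) hz2
  rw [LL_apply, hjv] at k0 k2
  simp [pt] at k0 k2
  apply hv
  rcases k0 with k0 | k0
  · exact absurd k0 hc'
  · rcases k2 with k2 | k2
    · exact absurd k2 hc'
    · exact Prod.ext k0 k2

/-- differentiability of the chart -/
private lemma chart_smooth (Φ : E3 → E3) (U : Set E3) (hU : IsOpen U) (r z : ℝ)
    (hp : pt r 0 z ∈ U) (hΦ : ContDiffOn ℝ 1 Φ U) :
    IsOpen {w : ℝ × ℝ | 0 < w.1 ∧ LL w ∈ U} ∧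
      ContDiffOn ℝ 1 (fun w => PP (Φ (LL w))) {w : ℝ × ℝ | 0 < w.1 ∧ LL w ∈ U} ∧
      fderiv ℝ (fun w => PP (Φ (LL w))) (r, z) =
        PP.comp ((fderiv ℝ Φ (pt r 0 z)).comp LL) := by
  refine ⟨?_, ?_, ?_⟩
  · exact (isOpen_lt continuous_const continuous_fst).inter (hU.preimage LL.continuous)
  · exact PP.contDiff.comp_contDiffOn (hΦ.comp LL.contDiff.contDiffOn (fun w hw => hw.2))
  · have h1 : LL (r, z) = pt r 0 z := LL_apply (r, z)
    have h2 : HasFDerivAt Φ (fderiv ℝ Φ (pt r 0 z)) (LL (r, z)) := by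
      rw [h1]
      exact ((hΦ.contDiffAt (hU.mem_nhds hp)).differentiableAt (by norm_num)).hasFDerivAt
    have h3 : HasFDerivAt (fun w => Φ (LL w)) ((fderiv ℝ Φ (pt r 0 z)).comp LL) (r, z) :=
      h2.comp (r, z) LL.hasFDerivAt
    exact (PP.hasFDerivAt.comp (r, z) h3).fderiv

private lemma mer_iff (S : Set E3) (w : ℝ × ℝ) (hw : 0 < w.1) : w ∈ Mer S ↔ LL w ∈ S := by
  rw [LL_apply]
  exact ⟨fun h => h.2, fun h => ⟨hw.le, h⟩⟩

theorem hCHT (hTYP : StTYP) (hMDY : StMDY) : StCHT := by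
  intro S hS r z hr hp
  obtain ⟨-, -, t3, t4, -⟩ := hTYP S hS _ hp
  obtain ⟨-, -, -, -, -, -, -, m8⟩ := hMDY
  constructor
  · rintro ⟨Φ, U, hU, hpU, hΦ, hΦ0, hiso, hSU⟩
    obtain ⟨j0, j1⟩ := t3 Φ U hU hpU hΦ hΦ0 hiso hSU
    obtain ⟨c1, c2, c3⟩ := chart_smooth Φ U hU r z hpU hΦ
    have hinj : ∀ v, v ≠ 0 → (fderiv ℝ Φ (pt r 0 z)) v ≠ 0 := by
      intro v hv h
      have h1 := hiso v
      rw [h, norm_zero] at h1
      exact hv (norm_eq_zero.1 h1.symm)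
    refine ⟨fun w => PP (Φ (LL w)), ⟨_, c1, ⟨hr, by rw [LL_apply]; exact hpU⟩, c2, ?_, ?_, ?_⟩, ?_⟩
    · change PP (Φ (LL (r, z))) = 0
      rw [LL_apply, hΦ0, map_zero]
    · rw [c3]
      exact inj_chart _ r z hr hinj j0 j1
    · rintro w ⟨hw1, hw2⟩
      rw [mer_iff S w hw1, hSU _ hw2, ← m8]
      exact Iff.rfl
    · intro v
      rw [c3]
      set A := fderiv ℝ Φ (pt r 0 z) with hA
      set j := Jv (pt r 0 z) with hj
      have hjv : j = pt 0 r 0 := Jv_pt r z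
      have hj0 : j ≠ 0 := by
        intro h
        have := congrArg (fun u : E3 => u 1) h
        simp only [hjv, pt1] at this
        exact hr.ne' this
      have hc' : (A j) 2 ≠ 0 := by
        intro h
        exact hinj j hj0 (e3_ext j0 j1 h)
      let I : E3 →ₗᵢ[ℝ] E3 := ⟨A.toLinearMap, hiso⟩
      have hin : inner ℝ (A (LL v)) (A j) = inner ℝ (LL v) j := I.inner_map_map (LL v) j
      have hin2 : inner ℝ (LL v) j = 0 := by
        rw [LL_apply, hjv, PiLp.inner_apply, Fin.sum_univ_three, pt0, pt0, pt1, pt1, pt2, pt2]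
        simp
      rw [hin2, PiLp.inner_apply, Fin.sum_univ_three, j0, j1] at hin
      have h3 : (A (LL v)) 2 = 0 := by
        simp at hin
        rcases hin with h | h
        · exact absurd h hc'
        · exact h
      have h4 : ‖A (LL v)‖ ^ 2 = ‖LL v‖ ^ 2 := by rw [hiso]
      rw [norm_sq3, norm_sq3, h3, LL_apply, pt0, pt1, pt2] at h4
      change (A (LL v)) 0 ^ 2 + (A (LL v)) 1 ^ 2 = v.1 ^ 2 + v.2 ^ 2
      rw [LL_apply]
      linarith
  · rintro ⟨Φ, U, hU, hpU, hΦ, hΦ0, hinj, hSU⟩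
    obtain ⟨j0, j1⟩ := t4 Φ U hU hpU hΦ hΦ0 hinj hSU
    obtain ⟨c1, c2, c3⟩ := chart_smooth Φ U hU r z hpU hΦ
    refine ⟨fun w => PP (Φ (LL w)), _, c1, ⟨hr, by rw [LL_apply]; exact hpU⟩, c2, ?_, ?_, ?_⟩
    · change PP (Φ (LL (r, z))) = 0
      rw [LL_apply, hΦ0, map_zero]
    · rw [c3]
      exact inj_chart _ r z hr hinj j0 j1
    · rintro w ⟨hw1, hw2⟩
      rw [mer_iff S w hw1, hSU _ hw2]
      change 0 ≤ (Φ (LL w)) 0 ∧ (Φ (LL w)) 1 = 0 ↔ ∃ (i : Fin 1) (t : ℝ), 0 ≤ t ∧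
        ((Φ (LL w)) 0, (Φ (LL w)) 1) = t • (![((1 : ℝ), (0 : ℝ))] : Fin 1 → ℝ × ℝ) i
      constructor
      · rintro ⟨h1, h2⟩
        refine ⟨0, (Φ (LL w)) 0, h1, ?_⟩
        rw [h2]
        simp
      · rintro ⟨i, t, ht, h⟩
        have hi : i = 0 := Subsingleton.elim _ _
        subst hi
        have h1 := congrArg Prod.fst h
        have h2 := congrArg Prod.snd h
        simp at h1 h2
        exact ⟨by rw [h1]; exact ht, h2⟩

end Pool.Agent.Helper58.CY
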