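import Pool.Agent.Helper31.CY.St2

/-!
Project CY (MP_9583f0_gt), module RHO: the outermost radius of a meridian network.
-/

set_option autoImplicit false

open Set Topology Filter

namespace Pool.Agent.Helper58.CY

open Pool.Agent.Helper31.CY

private lemma level_compact (N : Set (ℝ × ℝ)) (hN : IsCompact N) (t : ℝ) :
    IsCompact {x : ℝ | (x, t) ∈ N} := by
  have h1 : {x : ℝ | (x, t) ∈ N} = Prod.fst '' (N ∩ {p : ℝ × ℝ | p.2 = t}) := by
    ext x
    constructor
    · intro hx
      exact ⟨(x, t), ⟨hx, rfl⟩, rfl⟩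
    · rintro ⟨⟨a, b⟩, ⟨h1, h2⟩, h3⟩
      have h2' : b = t := h2
      have h3' : a = x := h3
      subst h2' h3'
      exact h1
  rw [h1]
  exact (hN.inter_right (isClosed_eq continuous_snd continuous_const)).image continuous_fst

/-- every level between the two end points is met -/
private lemma level_nonempty (hHGT : StHGT) (hLVL : StLVL) (hCTF : StCTF) (N : Set (ℝ × ℝ))
    (r0 r1 h : ℝ) (hN : Net N r0 r1 h) (hS : Sg N r0 r1 h) (t : ℝ) (ht : t ∈ Icc 0 h) :
    {x : ℝ | (x, t) ∈ N}.Nonempty := by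
  obtain ⟨hl1, -⟩ := hLVL N r0 r1 h hN
  rcases ht.1.eq_or_lt with h0 | h0
  · exact ⟨r0, by rw [← h0]; exact hN.q0⟩
  rcases ht.2.eq_or_lt with h1 | h1
  · exact ⟨r1, by rw [h1]; exact hN.q1⟩
  by_contra hemp
  have hno : ∀ x : ℝ, (x, t) ∉ N := fun x hx => hemp ⟨x, hx⟩
  have hKc : IsCompact (N ∩ {p : ℝ × ℝ | p.2 ≤ t}) :=
    hN.cpt.inter_right (isClosed_le continuous_snd continuous_const)
  have hK0 : ((r0, 0) : ℝ × ℝ) ∈ N ∩ {p : ℝ × ℝ | p.2 ≤ t} := ⟨hN.q0, h0.le⟩
  obtain ⟨⟨q, hqK, hqX, hqm, -⟩, -⟩ := hHGT N r0 r1 h hN (N ∩ {p : ℝ × ℝ | p.2 ≤ t})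
    {((r0, 0) : ℝ × ℝ)} hKc ⟨_, hK0⟩ inter_subset_left (by
      intro q hq hqX
      refine ⟨fun h => hqX h, ?_, ?_⟩
      · intro h2
        rw [h2] at hq
        exact absurd hq.2 (not_le.2 h1)
      · have h3 : q.2 ≠ t := by
          intro h3
          apply hno q.1
          rw [← h3]
          exact hq.1
        have h4 : q.2 < t := lt_of_le_of_ne hq.2 h3
        refine ⟨t - q.2, by linarith, fun x hx hxN => ⟨hxN, ?_⟩⟩
        have h5 := (abs_lt.1 hx.2).2
        change x.2 ≤ t
        linarith)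
  have hq0 : q = ((r0, 0) : ℝ × ℝ) := hqX
  have hflat : ∀ x ∈ N, x.2 ≤ t → x.2 ≤ 0 := by
    intro x hx hxt
    have := hqm x ⟨hx, hxt⟩
    rw [hq0] at this
    exact this
  obtain ⟨v, hv, ε, hε, hE⟩ := hN.e0
  obtain ⟨c1, -, -, c4, -⟩ := hCTF r0 (v.1 / v.2) hN.p0
  have hcont : ContinuousAt (cat r0 (v.1 / v.2)) 0 := (c4 0).continuousAt
  obtain ⟨δ, hδ, hδ2⟩ := Metric.continuousAt_iff.1 hcont ε hε
  rcases lt_trichotomy v.2 0 with hv2 | hv2 | hv2
  · -- a point below the level zero
    set η : ℝ := min (δ / 2) (ε / 2) with hη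
    have hη0 : 0 < η := lt_min (by linarith) (by linarith)
    have hη1 : η ≤ δ / 2 := min_le_left _ _
    have hη2 : η ≤ ε / 2 := min_le_right _ _
    have hx : ((cat r0 (v.1 / v.2) (-η), -η) : ℝ × ℝ) ∈ N := by
      rw [hE]
      · right; left
        refine ⟨hv2, ?_, ?_⟩
        · change -η ≤ 0
          linarith
        · change cat r0 (v.1 / v.2) (-η) = cat r0 (v.1 / v.2) (-η - 0)
          rw [sub_zero]
      · refine ⟨?_, ?_⟩
        · have := hδ2 (x := -η) (by
            rw [Real.dist_eq, sub_zero, abs_neg, abs_of_pos hη0]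
            linarith)
          rw [c1, Real.dist_eq] at this
          exact this
        · change |-η - 0| < ε
          rw [sub_zero, abs_neg, abs_of_pos hη0]
          linarith
    have := (hl1 _ hx).1
    change 0 ≤ -η at this
    linarith
  · -- a second point at the level zero
    have hv1 : v.1 ≠ 0 := by
      intro h
      exact hv (Prod.ext h hv2)
    rcases lt_or_gt_of_ne hv1 with hv1 | hv1
    · have hx : ((r0 - ε / 2, 0) : ℝ × ℝ) ∈ N := by
        rw [hE]
        · right; right
          refine ⟨hv2, rfl, ?_⟩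
          change 0 ≤ (r0 - ε / 2 - r0) * v.1
          nlinarith
        · refine ⟨?_, ?_⟩
          · change |r0 - ε / 2 - r0| < ε
            rw [abs_lt]
            constructor <;> linarith
          · change |(0 : ℝ) - 0| < ε
            rw [sub_zero, abs_zero]
            exact hε
      have h1 := congrArg Prod.fst ((hS _ hx).1 rfl)
      change r0 - ε / 2 = r0 at h1
      linarith
    · have hx : ((r0 + ε / 2, 0) : ℝ × ℝ) ∈ N := by
        rw [hE]
        · right; right
          refine ⟨hv2, rfl, ?_⟩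
          change 0 ≤ (r0 + ε / 2 - r0) * v.1
          have h1 : 0 < v.1 := hv1
          have h2 : r0 + ε / 2 - r0 = ε / 2 := by ring
          rw [h2]
          positivity
        · refine ⟨?_, ?_⟩
          · change |r0 + ε / 2 - r0| < ε
            rw [abs_lt]
            constructor <;> linarith
          · change |(0 : ℝ) - 0| < ε
            rw [sub_zero, abs_zero]
            exact hε
      have h1 := congrArg Prod.fst ((hS _ hx).1 rfl)
      change r0 + ε / 2 = r0 at h1
      linarith
  · -- a point just above the level zero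
    set η : ℝ := min (min (δ / 2) (ε / 2)) t with hη
    have hη0 : 0 < η := lt_min (lt_min (by linarith) (by linarith)) h0
    have hη1 : η ≤ δ / 2 := (min_le_left _ _).trans (min_le_left _ _)
    have hη2 : η ≤ ε / 2 := (min_le_left _ _).trans (min_le_right _ _)
    have hη3 : η ≤ t := min_le_right _ _
    have hx : ((cat r0 (v.1 / v.2) η, η) : ℝ × ℝ) ∈ N := by
      rw [hE]
      · left
        refine ⟨hv2, hη0.le, ?_⟩
        change cat r0 (v.1 / v.2) η = cat r0 (v.1 / v.2) (η - 0)
        rw [sub_zero]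
      · refine ⟨?_, ?_⟩
        · have := hδ2 (x := η) (by
            rw [Real.dist_eq, sub_zero, abs_of_pos hη0]
            linarith)
          rw [c1, Real.dist_eq] at this
          exact this
        · change |η - 0| < ε
          rw [sub_zero, abs_of_pos hη0]
          linarith
    have := hflat _ hx hη3
    change η ≤ 0 at this
    linarith

theorem hRHO (hHGT : StHGT) (hLVL : StLVL) (hCTF : StCTF) : StRHO := by
  intro N r0 r1 h hN hS
  have hmem : ∀ t ∈ Icc 0 h, (rho N t, t) ∈ N := by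
    intro t ht
    exact (level_compact N hN.cpt t).sSup_mem
      (level_nonempty hHGT hLVL hCTF N r0 r1 h hN hS t ht)
  have hle : ∀ t ∈ Icc 0 h, ∀ x, (x, t) ∈ N → x ≤ rho N t := by
    intro t ht x hx
    exact le_csSup (level_compact N hN.cpt t).bddAbove hx
  have hpos : ∀ t ∈ Icc 0 h, 0 < rho N t := by
    intro t ht
    have h1 : 0 ≤ rho N t := hN.nn _ (hmem t ht)
    rcases h1.eq_or_lt with h2 | h2
    · exfalso
      have h3 := hmem t ht
      rw [← h2] at h3
      obtain ⟨ε, hε, hA⟩ := hN.ax t h3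
      have h4 : ((ε / 2, t) : ℝ × ℝ) ∈ N := by
        rw [hA]
        · refine ⟨?_, ?_⟩
          · change |ε / 2 - 0| < ε
            rw [sub_zero, abs_of_pos (by linarith)]
            linarith
          · change |t - t| < ε
            rw [sub_self, abs_zero]
            exact hε
        · change 0 ≤ ε / 2
          linarith
      have h5 := hle t ht _ h4
      rw [← h2] at h5
      linarith
    · exact h2
  refine ⟨?_, ?_, fun t ht => ⟨hmem t ht, hpos t ht, hle t ht⟩, ?_⟩
  · exact congrArg Prod.fst ((hS _ (hmem 0 ⟨le_rfl, hN.h0.le⟩)).1 rfl)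
  · exact congrArg Prod.fst ((hS _ (hmem h ⟨hN.h0.le, le_rfl⟩)).2 rfl)
  · intro t ht ε hε
    have hKc : IsCompact (Prod.snd '' (N ∩ {p : ℝ × ℝ | rho N t + ε ≤ p.1})) :=
      (hN.cpt.inter_right (isClosed_le continuous_const continuous_fst)).image continuous_snd
    have htn : t ∈ (Prod.snd '' (N ∩ {p : ℝ × ℝ | rho N t + ε ≤ p.1}))ᶜ := by
      rintro ⟨⟨a, b⟩, ⟨h1, h2⟩, h3⟩
      have h3' : b = t := h3
      subst h3'
      have h4 := hle b ht a h1
      change rho N b + ε ≤ a at h2
      linarith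
    obtain ⟨δ, hδ, hδ2⟩ := Metric.isOpen_iff.1 hKc.isClosed.isOpen_compl t htn
    refine ⟨δ, hδ, fun s hs hst => ?_⟩
    by_contra hcon
    rw [not_lt] at hcon
    apply hδ2 (show s ∈ Metric.ball t δ by rw [Metric.mem_ball, Real.dist_eq]; exact hst)
    exact ⟨(rho N s, s), ⟨hmem s hs, hcon⟩, rfl⟩

end Pool.Agent.Helper58.CY
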